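import Pool.Agent.R247.SX.Main

/-!
# The inclusion of the `c_0`-factorable closure in the spatial ideals is proper

Scalars are real or complex (`RCLike 𝕜`), positive integers are `ℕ+`. In
`Pool/Agent/R247/SX/Comb.lean`: `Sch n` is the `n`-th Schreier family. In
`Pool/Agent/R247/SX/Space.lean`: `nrm n x` is the supremum of `∑ j ∈ E, ‖x j‖` over `E ∈ Sch n`,
`X 𝕜 n` is the Schreier space `X[S_n]`, the completion of `c_00` in this norm, `P n N` is the
basis projection of a set `N` of positive integers (the bounded operator which extends the
restriction of finitely supported sequences to `N`). In `Pool/Agent/R247/SX/Main.lean`: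
`Op 𝕜 n` are the bounded operators, `compacts` the compact operators, `spatial 𝕜 n N` is the closed two-sided ideal generated by
`P n N`, `NontrivialSpatial` are the spatial ideals (`N` nonempty) strictly between the compact
operators and all operators, `factC0` are the operators which factor through `c_0`
(Mathlib's `C₀(ℕ, 𝕜)`).

The theorem answers the question (yes, for every `n ≥ 1`): the closure of the set of operators
that factor through `c_0` is properly contained in the intersection of all non-trivial spatial
ideals. Moreover there is a projection which lies in the spatial ideal of every infinite `N` and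
which is not in the closure of the operators that factor through `c_0`.

Proof. For every infinite `N` special convex combinations of the basis vectors `e_j`, `j ∈ N`, of
fast growing length give blocks of averages which span a complemented copy of
`(ℓ_1^1 ⊕ ℓ_1^2 ⊕ ℓ_1^3 ⊕ ...)_{c_0}`, with norms independent of `N`; so the projection onto the
copy for one `N` factors through `P_M` for every infinite `M`. It is not approximable by operators
that factor through `c_0`, as otherwise the identity of `ℓ_1^k` would factor through `c_0` with
constants independent of `k`, against Khintchine's inequality.
-/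

namespace Pool.Agent.Results.MP_a8437e_an.ProperInclusion

open Pool.Agent.R247.SX

theorem result (𝕜 : Type) [RCLike 𝕜] (n : ℕ) (hn : 1 ≤ n) :
    closure (factC0 𝕜 n) ⊂ ⋂₀ {I | NontrivialSpatial 𝕜 n I} ∧
    ∃ T : Op 𝕜 n, T * T = T ∧
      (∀ N : Set ℕ+, N.Infinite → T ∈ spatial 𝕜 n N) ∧ T ∉ closure (factC0 𝕜 n) :=
  ⟨main 𝕜 n hn, exists_proj 𝕜 n hn⟩

end Pool.Agent.Results.MP_a8437e_an.ProperInclusion
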